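import Pool.Agent.H39.Gen2

namespace Pool.Agent.Results.MP_94c136_al.NotCompact

open Set Filter Topology Pool.Agent.H39.Gen2

set_option warn.classDefReducibility false

/-- pointwise convergence on `A → B` with `B` discrete -/
def ptw (A B : Type) : TopologicalSpace (A → B) :=
  @Pi.topologicalSpace A (fun _ => B) (fun _ => ⊥)

/-- pointwise convergence on `S_∞` -/
def symTop : TopologicalSpace (Equiv.Perm ℕ) :=
  TopologicalSpace.induced (fun g : Equiv.Perm ℕ => (g : ℕ → ℕ)) (ptw ℕ ℕ)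

/-- the subspace topology on a subgroup of `S_∞` -/
def grpTop (G : Subgroup (Equiv.Perm ℕ)) : TopologicalSpace G :=
  TopologicalSpace.induced Subtype.val symTop

/-- finitely many orbits on `n`-tuples for every `n ≥ 1` -/
def Oligo (G : Subgroup (Equiv.Perm ℕ)) : Prop :=
  ∀ n : ℕ, 1 ≤ n → Finite (MulAction.orbitRel.Quotient G (Fin n → ℕ))

/-- the group of automorphisms of `G` that are homeomorphisms -/
def AutG (G : Subgroup (Equiv.Perm ℕ)) : Subgroup (MulAut G) where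
  carrier := {α | @Continuous G G (grpTop G) (grpTop G) α ∧
    @Continuous G G (grpTop G) (grpTop G) α.symm}
  one_mem' := by
    let := grpTop G
    exact ⟨continuous_id, continuous_id⟩
  mul_mem' := by
    let := grpTop G
    intro a b ha hb
    exact ⟨ha.1.comp hb.1, hb.2.comp ha.2⟩
  inv_mem' := fun h => ⟨h.2, h.1⟩

/-- left cosets of open subgroups -/
def OpenCoset (G : Subgroup (Equiv.Perm ℕ)) (C : Set G) : Prop :=
  ∃ (U : Subgroup G) (g : G), @IsOpen G (grpTop G) (U : Set G) ∧ C = (fun u => g * u) '' U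

/-- pointwise convergence of the action on open cosets -/
def autTop (G : Subgroup (Equiv.Perm ℕ)) : TopologicalSpace (AutG G) :=
  TopologicalSpace.induced
    (fun (α : AutG G) (C : {C : Set G // OpenCoset G C}) => (fun x => α.1 x) '' C.1)
    (ptw {C : Set G // OpenCoset G C} (Set G))

/-- inner automorphisms -/
def Inn (G : Subgroup (Equiv.Perm ℕ)) : Subgroup (AutG G) where
  carrier := {α | ∃ g : G, ∀ x, α.1 x = g * x * g⁻¹}
  one_mem' := ⟨1, fun x => by simp⟩
  mul_mem' := by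
    rintro a b ⟨g, hg⟩ ⟨h, hh⟩
    refine ⟨g * h, fun x => ?_⟩
    change a.1 (b.1 x) = _
    rw [hh, hg]; group
  inv_mem' := by
    rintro a ⟨g, hg⟩
    refine ⟨g⁻¹, fun x => a.1.injective ?_⟩
    change a.1 (a.1.symm x) = _
    rw [MulEquiv.apply_symm_apply, hg]; group

/-- the quotient topology on `Out(G) = Aut(G) / Inn(G)` -/
def outTop (G : Subgroup (Equiv.Perm ℕ)) : TopologicalSpace (AutG G ⧸ Inn G) :=
  TopologicalSpace.coinduced (QuotientGroup.mk : AutG G → AutG G ⧸ Inn G) (autTop G)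

theorem mem_nhds_sym {g : Equiv.Perm ℕ} {t : Set (Equiv.Perm ℕ)} :
    t ∈ @nhds _ symTop g ↔ ∃ E : Finset ℕ, ∀ h : Equiv.Perm ℕ, (∀ x ∈ E, h x = g x) → h ∈ t := by
  unfold symTop
  rw [@nhds_induced _ _ (ptw ℕ ℕ), mem_comap]
  change (∃ v ∈ 𝓝 (g : ℕ → ℕ), _) ↔ _
  constructor
  · rintro ⟨v, hv, hsub⟩
    rw [nhds_pi, Filter.mem_pi'] at hv
    obtain ⟨E, w, hw, hsub'⟩ := hv
    refine ⟨E, fun h hh => hsub (hsub' fun x hx => ?_)⟩
    change h x ∈ w x
    rw [hh x hx]
    exact mem_of_mem_nhds (hw x)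
  · rintro ⟨E, hE⟩
    refine ⟨{s : ℕ → ℕ | ∀ x ∈ E, s x = g x}, ?_, fun h hh => hE h hh⟩
    have := (Filter.biInter_finset_mem E).2 fun x _ =>
      (continuous_apply x).continuousAt.preimage_mem_nhds
        ((isOpen_discrete {g x}).mem_nhds (x := (g : ℕ → ℕ) x) rfl)
    exact mem_of_superset this fun s hs x hx => mem_iInter₂.1 hs x hx

theorem mem_nhds_grp {G : Subgroup (Equiv.Perm ℕ)} {g : G} {t : Set G} :
    t ∈ @nhds G (grpTop G) g ↔ ∃ E : Finset ℕ, ∀ h : G, (∀ x ∈ E, h.1 x = g.1 x) → h ∈ t := by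
  unfold grpTop
  rw [@nhds_induced _ _ symTop, mem_comap]
  constructor
  · rintro ⟨v, hv, hsub⟩
    obtain ⟨E, hE⟩ := mem_nhds_sym.1 hv
    exact ⟨E, fun h hh => hsub (hE _ hh)⟩
  · rintro ⟨E, hE⟩
    exact ⟨{h | ∀ x ∈ E, h x = g.1 x}, mem_nhds_sym.2 ⟨E, fun h hh => hh⟩, fun h hh => hE h hh⟩

/-- the witness -/
def W : Subgroup (Equiv.Perm ℕ) where
  carrier := {g | (∀ x, g x < 2 ↔ x < 2) ∧ ∀ n, ∃ b : Prop, ∀ s : Finset ℕ, (∀ x ∈ s, 2 ≤ x) →
    s.card = n → (c s ↔ (c (s.image g) ↔ b))}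
  one_mem' := ⟨fun _ => Iff.rfl, fun n => ⟨True, fun s _ _ => by simp⟩⟩
  mul_mem' := by
    rintro g h ⟨hg1, hg2⟩ ⟨hh1, hh2⟩
    refine ⟨fun x => (hg1 _).trans (hh1 x), fun n => ?_⟩
    obtain ⟨a, ha⟩ := hg2 n
    obtain ⟨b, hb⟩ := hh2 n
    refine ⟨(a ↔ b), fun s hs hn => ?_⟩
    have h1 := hb s hs hn
    have h2 := ha (s.image h) (by
      intro x hx
      obtain ⟨y, hy, rfl⟩ := Finset.mem_image.1 hx
      have := hs y hy
      have := hh1 y
      omega) (by rw [Finset.card_image_of_injective _ h.injective, hn])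
    rw [Finset.image_image] at h2
    change c s ↔ (c (s.image (g ∘ h)) ↔ _)
    tauto
  inv_mem' := by
    rintro g ⟨hg1, hg2⟩
    refine ⟨fun x => by simpa using (hg1 (g⁻¹ x)).symm, fun n => ?_⟩
    obtain ⟨a, ha⟩ := hg2 n
    refine ⟨a, fun s hs hn => ?_⟩
    have h2 := ha (s.image (g⁻¹ : Equiv.Perm ℕ)) (by
      intro x hx
      obtain ⟨y, hy, rfl⟩ := Finset.mem_image.1 hx
      have := hs y hy
      have h := hg1 (g⁻¹ y)
      simp only [Equiv.Perm.coe_inv, Equiv.apply_symm_apply] at h ⊢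
      omega) (by rw [Finset.card_image_of_injective _ (g⁻¹).injective, hn])
    rw [Finset.image_image] at h2
    have e : s.image (g ∘ (g⁻¹ : Equiv.Perm ℕ)) = s := by
      conv_rhs => rw [← Finset.image_id (s := s)]
      congr 1
      ext x
      simp
    rw [e] at h2
    tauto

theorem W_closed : @IsClosed _ symTop (W : Set (Equiv.Perm ℕ)) := by
  let := symTop
  rw [← isOpen_compl_iff, isOpen_iff_mem_nhds]
  intro g hg
  rw [mem_nhds_sym]
  by_cases h1 : ∀ x, g x < 2 ↔ x < 2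
  · have h2 : ¬ ∀ n, ∃ b : Prop, ∀ s : Finset ℕ, (∀ x ∈ s, 2 ≤ x) →
        s.card = n → (c s ↔ (c (s.image g) ↔ b)) := fun h => hg ⟨h1, h⟩
    push Not at h2
    obtain ⟨n, hn⟩ := h2
    obtain ⟨s, hs, hsn, hs'⟩ := hn True
    obtain ⟨t, ht, htn, ht'⟩ := hn False
    refine ⟨s ∪ t, fun h hh hW => ?_⟩
    obtain ⟨b, hb⟩ := hW.2 n
    have e1 : s.image h = s.image g :=
      Finset.image_congr fun x hx => hh x (Finset.mem_union_left _ hx)
    have e2 : t.image h = t.image g :=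
      Finset.image_congr fun x hx => hh x (Finset.mem_union_right _ hx)
    have h3 := hb s hs hsn
    have h4 := hb t ht htn
    rw [e1] at h3
    rw [e2] at h4
    tauto
  · obtain ⟨x, hx⟩ := not_forall.1 h1
    refine ⟨{x}, fun h hh hW => hx ?_⟩
    rw [← hh x (Finset.mem_singleton_self x)]
    exact hW.1 x

theorem mem_W {ε : ℕ → Prop} {σ : Equiv.Perm ℕ} (h0 : σ 0 = 0) (h1 : σ 1 = 1)
    (h : ∀ t : Finset ℕ, c t ↔ (c (t.image σ) ↔ ε t.card)) : σ ∈ W := by
  refine ⟨fun x => ?_, fun n => ⟨ε n, fun s _ hn => hn ▸ h s⟩⟩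
  have a0 : σ x = 0 ↔ x = 0 := by rw [← h0, σ.injective.eq_iff, h0]
  have a1 : σ x = 1 ↔ x = 1 := by rw [← h1, σ.injective.eq_iff, h1]
  omega

theorem W_oligo : Oligo W := by
  classical
  intro k _
  let ext : (Fin k → ℕ) → Fin 2 ⊕ Fin k → ℕ := fun u => Sum.elim (fun i => i.1) u
  let τ : (Fin k → ℕ) → ((Fin 2 ⊕ Fin k) → (Fin 2 ⊕ Fin k) → Prop) ×
      (Finset (Fin 2 ⊕ Fin k) → Prop) := fun u =>
    (fun i j => ext u i = ext u j, fun J => c (J.image (ext u)))
  have key : ∀ u v, τ u = τ v → ∃ σ : W, σ • u = v := by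
    intro u v huv
    have h1 : ∀ i j, ext u i = ext u j ↔ ext v i = ext v j := fun i j =>
      iff_of_eq (congrFun (congrFun (congrArg Prod.fst huv) i) j)
    have h2 : ∀ J : Finset (Fin 2 ⊕ Fin k), c (J.image (ext u)) ↔ c (J.image (ext v)) := fun J =>
      iff_of_eq (congrFun (congrArg Prod.snd huv) J)
    obtain ⟨σ, hσ, hσ'⟩ := homog (ε := fun _ => True)
      (s := Finset.univ.image fun i => (ext u i, ext v i)) ⟨by
      intro p hp q hq
      obtain ⟨i, -, rfl⟩ := Finset.mem_image.1 hp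
      obtain ⟨j, -, rfl⟩ := Finset.mem_image.1 hq
      exact h1 i j, by
      intro t ht
      obtain ⟨J, -, rfl⟩ := Finset.subset_image_iff.1 ht
      rw [Finset.image_image, Finset.image_image, iff_true]
      exact h2 J⟩
    have hs : ∀ i, σ (ext u i) = ext v i := fun i =>
      hσ _ (Finset.mem_image_of_mem _ (Finset.mem_univ i))
    exact ⟨⟨σ, mem_W (ε := fun _ => True) (hs (Sum.inl 0)) (hs (Sum.inl 1)) hσ'⟩, funext fun i => hs (Sum.inr i)⟩
  refine Finite.of_surjective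
    (fun r : range τ => (Quotient.mk'' r.2.choose : MulAction.orbitRel.Quotient W _)) ?_
  intro q
  induction q using Quotient.inductionOn' with
  | h u =>
    refine ⟨⟨τ u, u, rfl⟩, Quotient.sound' ?_⟩
    obtain ⟨σ, hσ⟩ := key u _ (Exists.choose_spec (⟨u, rfl⟩ : τ u ∈ range τ)).symm
    exact MulAction.orbitRel_apply.2 ⟨σ, hσ⟩

/-- `g` keeps the colours on level `n` -/
def Keeps (n : ℕ) (g : W) : Prop := c (Finset.Ico 2 (n + 2)) ↔ c ((Finset.Ico 2 (n + 2)).image g.1)

theorem keeps_mul (n : ℕ) (g h : W) : Keeps n (g * h) ↔ (Keeps n g ↔ Keeps n h) := by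
  have hs : ∀ x ∈ Finset.Ico 2 (n + 2), 2 ≤ x := fun x hx => (Finset.mem_Ico.1 hx).1
  have hn : (Finset.Ico 2 (n + 2)).card = n := by simp
  obtain ⟨a, ha⟩ := g.2.2 n
  have h1 := ha _ hs hn
  have h2 := ha ((Finset.Ico 2 (n + 2)).image h.1) (by
    intro x hx
    obtain ⟨y, hy, rfl⟩ := Finset.mem_image.1 hx
    have := hs y hy
    have := h.2.1 y
    omega) (by rw [Finset.card_image_of_injective _ h.1.injective, hn])
  rw [Finset.image_image] at h2
  unfold Keeps
  change (_ ↔ c ((Finset.Ico 2 (n + 2)).image (g.1 ∘ h.1))) ↔ _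
  generalize c ((Finset.Ico 2 (n + 2)).image (g.1 ∘ h.1)) = p at *
  generalize c ((Finset.Ico 2 (n + 2)).image g.1) = q at *
  generalize c ((Finset.Ico 2 (n + 2)).image h.1) = r at *
  generalize c (Finset.Ico 2 (n + 2)) = w at *
  clear hs hn ha
  tauto

theorem swap_fix {x : ℕ} (hx : 2 ≤ x) : Equiv.swap 0 1 x = x :=
  Equiv.swap_apply_of_ne_of_ne (by omega) (by omega)

theorem swap_img {s : Finset ℕ} (hs : ∀ x ∈ s, 2 ≤ x) : s.image (Equiv.swap 0 1) = s := by
  conv_rhs => rw [← Finset.image_id (s := s)]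
  exact Finset.image_congr fun x hx => swap_fix (hs x hx)

/-- the central involution -/
def z : W := ⟨Equiv.swap 0 1, fun x => by
    rw [Equiv.swap_apply_def]; split_ifs <;> omega,
  fun n => ⟨True, fun s hs _ => by
    rw [swap_img hs]; simp⟩⟩

theorem z_mul_z : z * z = 1 := Subtype.ext (Equiv.swap_mul_self 0 1)

theorem z_comm (g : W) : z * g = g * z := by
  refine Subtype.ext (Equiv.ext fun x => ?_)
  change Equiv.swap 0 1 (g.1 x) = g.1 (Equiv.swap 0 1 x)
  have h0 := (g.2.1 0).2 (by omega)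
  have h1 := (g.2.1 1).2 (by omega)
  have h01 : g.1 0 ≠ g.1 1 := g.1.injective.ne (by omega)
  by_cases hx : 2 ≤ x
  · have := g.2.1 x
    rw [swap_fix hx, swap_fix (by omega)]
  · obtain rfl | rfl : x = 0 ∨ x = 1 := by omega
    · rw [Equiv.swap_apply_left, Equiv.swap_apply_def]; split_ifs <;> omega
    · rw [Equiv.swap_apply_right, Equiv.swap_apply_def]; split_ifs <;> omega

theorem keeps_z (n : ℕ) : Keeps n z := by
  unfold Keeps
  change _ ↔ c (Finset.image (Equiv.swap 0 1) _)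
  rw [swap_img fun x hx => (Finset.mem_Ico.1 hx).1]

open Classical in
/-- the twisting map -/
noncomputable def tw (n : ℕ) (g : W) : W := if Keeps n g then g else g * z

theorem tw_tw (n : ℕ) (g : W) : tw n (tw n g) = g := by
  by_cases h : Keeps n g
  · simp [tw, h]
  · have : ¬ Keeps n (g * z) := by rw [keeps_mul]; simpa [keeps_z] using h
    simp [tw, h, this, mul_assoc, z_mul_z]

theorem tw_mul (n : ℕ) (g h : W) : tw n (g * h) = tw n g * tw n h := by
  have := keeps_mul n g h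
  by_cases hg : Keeps n g <;> by_cases hh : Keeps n h <;> simp only [hg, hh, iff_true, iff_false,
    not_true] at this <;> simp only [tw, this, hg, hh, if_true, if_false]
  · rw [mul_assoc]
  · rw [mul_assoc, mul_assoc, z_comm]
  · rw [mul_assoc, ← mul_assoc z, z_comm, mul_assoc h, z_mul_z, mul_one]

theorem tw_cont (n : ℕ) : @Continuous W W (grpTop W) (grpTop W) (tw n) := by
  classical
  let := grpTop W
  refine continuous_iff_continuousAt.2 fun g t ht => ?_
  obtain ⟨E, hE⟩ := mem_nhds_grp.1 ht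
  refine mem_nhds_grp.2 ⟨E ∪ E.image z.1 ∪ Finset.Ico 2 (n + 2), fun h hh => hE _ fun x hx => ?_⟩
  have hk : Keeps n h ↔ Keeps n g := by
    unfold Keeps
    rw [Finset.image_congr (g := g.1) fun y hy => hh y (Finset.mem_union_right _ hy)]
  by_cases hg : Keeps n g
  · simp only [tw, hk, hg, if_true]
    exact hh x (Finset.mem_union_left _ (Finset.mem_union_left _ hx))
  · simp only [tw, hk, hg, if_false]
    exact hh _ (Finset.mem_union_left _ (Finset.mem_union_right _ (Finset.mem_image_of_mem _ hx)))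

/-- the twisting automorphism -/
noncomputable def α (n : ℕ) : AutG W :=
  ⟨⟨⟨tw n, tw n, tw_tw n, tw_tw n⟩, tw_mul n⟩, tw_cont n, tw_cont n⟩

/-- the stabiliser of `0` -/
def U : Subgroup W := MulAction.stabilizer W (0 : ℕ)

theorem mem_U {g : W} : g ∈ U ↔ g.1 0 = 0 := Iff.rfl

theorem U_coset : OpenCoset W U := by
  refine ⟨U, 1, ?_, by simp⟩
  let := grpTop W
  refine isOpen_iff_mem_nhds.2 fun g hg => mem_nhds_grp.2 ⟨{0}, fun h hh => ?_⟩
  exact mem_U.2 ((hh 0 (Finset.mem_singleton_self 0)).trans (mem_U.1 hg))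

theorem U_conj (h : W) {g : W} (hg : g ∈ U) : h * g * h⁻¹ ∈ U := by
  have h0 := mem_U.1 hg
  have h1 : g.1 1 = 1 := by
    have := (g.2.1 1).2 (by omega)
    have h01 : g.1 0 ≠ g.1 1 := g.1.injective.ne (by omega)
    omega
  have h2 := ((h⁻¹).2.1 0).2 (by omega)
  have h3 : g.1 ((h⁻¹).1 0) = (h⁻¹).1 0 := by
    obtain e | e : (h⁻¹).1 0 = 0 ∨ (h⁻¹).1 0 = 1 := by omega
    · rw [e, h0]
    · rw [e, h1]
  rw [mem_U]
  change h.1 (g.1 ((h⁻¹).1 0)) = 0
  rw [h3]
  simp

theorem exists_flip (n : ℕ) : ∃ g ∈ U, ∀ m, Keeps m g ↔ m ≠ n + 3 := by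
  classical
  obtain ⟨σ, hσ, hσ'⟩ := homog (ε := fun k => k ≠ n + 3) (s := {(0, 0), (1, 1)}) ⟨by
    simp, by
    intro t ht
    have h1 : t.image Prod.fst = t.image Prod.snd := Finset.image_congr fun p hp => by
      have := ht hp
      simp only [Finset.mem_insert, Finset.mem_singleton] at this
      rcases this with rfl | rfl <;> rfl
    have h2 : t.card ≤ 2 := (Finset.card_le_card ht).trans Finset.card_le_two
    have h3 : t.card ≠ n + 3 := by omega
    rw [h1]
    simp [h3]⟩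
  have h0 : σ 0 = 0 := hσ (0, 0) (by simp)
  refine ⟨⟨σ, mem_W (ε := fun k => k ≠ n + 3) h0 (hσ (1, 1) (by simp)) hσ'⟩, h0, fun m => ?_⟩
  have := hσ' (Finset.Ico 2 (m + 2))
  rw [show (Finset.Ico 2 (m + 2)).card = m by simp] at this
  unfold Keeps
  tauto

theorem img_inj : Function.Injective fun n => (fun x => (α (n + 3)).1 x) '' (U : Set W) := by
  intro n m hnm
  by_contra hne
  obtain ⟨g, hg, hk⟩ := exists_flip n
  have h1 : g ∈ (fun x => (α (m + 3)).1 x) '' (U : Set W) :=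
    ⟨g, hg, if_pos ((hk _).2 (by omega))⟩
  obtain ⟨h, hh, e⟩ : g ∈ (fun x => (α (n + 3)).1 x) '' (U : Set W) := by
    have := hnm; simp only at this; rw [this]; exact h1
  have e2 : tw (n + 3) g = h := by rw [← e]; exact tw_tw _ h
  have e3 : tw (n + 3) g = g * z := if_neg fun h => (hk _).1 h rfl
  have e4 : (g * z).1 0 = 0 := by rw [← e3, e2]; exact mem_U.1 hh
  change g.1 (Equiv.swap 0 1 0) = 0 at e4
  rw [Equiv.swap_apply_left] at e4
  exact absurd (g.1.injective (e4.trans (mem_U.1 hg).symm)) (by omega)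

theorem result : ∃ G : Subgroup (Equiv.Perm ℕ), @IsClosed _ symTop (G : Set (Equiv.Perm ℕ)) ∧
    Oligo G ∧ ¬ @CompactSpace (AutG G ⧸ Inn G) (outTop G) := by
  refine ⟨W, W_closed, W_oligo, fun hc => ?_⟩
  let Φ : AutG W ⧸ Inn W → Set W := Quotient.lift (fun β => (fun x => β.1 x) '' (U : Set W)) (by
    intro a b hab
    obtain ⟨g, hg⟩ := QuotientGroup.leftRel_apply.1 hab
    have hb : ∀ x, b.1 x = a.1 (g * x * g⁻¹) := fun x => by
      rw [← hg x]
      exact (a.1.apply_symm_apply _).symm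
    ext y
    constructor
    · rintro ⟨x, hx, rfl⟩
      refine ⟨g⁻¹ * x * g⁻¹⁻¹, U_conj _ hx, ?_⟩
      change b.1 _ = a.1 x
      rw [hb]; congr 1; group
    · rintro ⟨x, hx, rfl⟩
      exact ⟨_, U_conj g hx, (hb x).symm⟩)
  let := outTop W
  let : TopologicalSpace (Set W) := ⊥
  have : DiscreteTopology (Set W) := ⟨rfl⟩
  have hΦ : Continuous Φ := by
    let := autTop W
    refine continuous_coinduced_dom.2 ?_
    have h1 : Continuous (fun (β : AutG W) (C : {C : Set W // OpenCoset W C}) =>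
        (fun x => β.1 x) '' C.1) := continuous_induced_dom
    exact (continuous_apply (⟨U, U_coset⟩ : {C : Set W // OpenCoset W C})).comp h1
  have hfin : (range Φ).Finite := (isCompact_range hΦ).finite_of_discrete
  exact infinite_range_of_injective img_inj
    (hfin.subset (by rintro _ ⟨n, rfl⟩; exact ⟨QuotientGroup.mk (α (n + 3)), rfl⟩))

end Pool.Agent.Results.MP_94c136_al.NotCompact
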